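import Pool.Agent.TH294.RG.Ms7
import Pool.Agent.TH294.RG.Pl11

/-!
# The fourth moment and the mass of planar eigenfunctions at all scales (MP_6b977f_mp)

The plane is `ℂ`; `dx f z`, `dy f z` are the partial derivatives `fderiv ℝ f z 1`,
`fderiv ℝ f z I`, `lap f = dx (dx f) + dy (dy f)`; `TF Ω φ` says that `φ : ℂ → ℝ` is smooth with
compact support contained in `Ω`.

The operator `D = λ^{-1/2} (∂x - i ∂y)` has, at a unit momentum of direction `α`, the symbol
`sym α = i exp(-iα)`. The hypothesis `hsc` says that `u n` has the semiclassical measure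
`m(z) ν_z(dα) dz` on the unit cosphere bundle over `Ω`. Quantum ergodicity is the case `m = 1`,
`ν_z` uniform. The hypothesis `hpar` says that `ν_z` has no atoms modulo `π`.

The theorem bounds the fourth moment from below by its Gaussian value plus `3/2` of the mean square
deviation of the local mass `mean r (u n)²` from `m`, at every scale `r` between a large multiple of
the wavelength and a small constant.
-/

set_option autoImplicit false
open MeasureTheory Filter Topology Complex ProbabilityTheory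
open scoped ContDiff ENNReal

namespace Pool.Agent.Results.MP_6b977f_mp.MesoscopicMass

open Pool.Agent.W745.RW

/-- the normalised derivative `λ^{-1/2} (∂x - i ∂y)` -/
noncomputable def D (lam : ℝ) (f : ℂ → ℂ) (z : ℂ) : ℂ :=
  ((1 / √lam : ℝ) : ℂ) * (dx f z - I * dy f z)

/-- the symbol of `D` at a unit momentum of direction `α` -/
noncomputable def sym (α : ℝ) : ℂ := I * Complex.exp (-(α : ℂ) * I)

/-- the probability that two independent directions of law `ν` are parallel (equal or opposite) -/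
noncomputable def parallel (ν : Measure ℝ) : ℝ :=
  (ν.prod ν).real {p | Real.sin (p.1 - p.2) = 0}

/-- the mean of `f` over the disc with centre `z` and radius `r` -/
noncomputable def mean (r : ℝ) (f : ℂ → ℝ) (z : ℂ) : ℝ :=
  1 / (Real.pi * r ^ 2) * ∫ w in Metric.ball z r, f w

/-- **Result.** Let `u n` be real solutions of `Δu + λ_n u = 0` on the open set `Ω ⊆ ℝ²`,
`λ_n → ∞`, with semiclassical measure `m(z) ν_z dz`, `m` smooth and `ν_z` without atoms modulo `π`.
Let `K ⊆ Ω` be compact, `φ ≥ 0` a test function supported in its interior and `ε > 0`. There are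
`R₀, r₀ > 0` such that for all large `n` and all `r` between `R₀ / √λ_n` and `r₀`

`3 ∫ φ m² + (3/2) ∫ φ (mean r (u²) - m)² ≤ ∫ φ u⁴ + ε (1 + ∫_K u⁴)`. -/
theorem result (Ω : Set ℂ) (lam : ℕ → ℝ) (hpos : ∀ n, 0 < lam n)
    (hlam : Tendsto lam atTop atTop) (u : ℕ → ℂ → ℝ) (hu : ∀ n, ContDiffOn ℝ ∞ (u n) Ω)
    (heq : ∀ n, ∀ z ∈ Ω, lap (u n) z + lam n * u n z = 0)
    (m : ℂ → ℝ) (hm : ContDiffOn ℝ ∞ m Ω) (ν : Kernel ℂ ℝ) [IsMarkovKernel ν]
    (hsc : ∀ φ, TF Ω φ → ∀ k : ℕ, Tendsto (fun n => ∫ z, (φ z : ℂ) * ((u n z : ℂ) *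
      (D (lam n))^[k] (fun w => (u n w : ℂ)) z)) atTop
      (𝓝 (∫ z, (φ z : ℂ) * ((m z : ℂ) * ∫ α, sym α ^ k ∂(ν z)))))
    (hpar : ∀ᵐ z ∂(volume.restrict Ω), parallel (ν z) = 0)
    (K : Set ℂ) (hK : IsCompact K) (hKΩ : K ⊆ Ω) (φ : ℂ → ℝ) (hφ : TF (interior K) φ)
    (hφ0 : ∀ z, 0 ≤ φ z) (ε : ℝ) (hε : 0 < ε) :
    ∃ R₀ r₀ : ℝ, 0 < R₀ ∧ 0 < r₀ ∧ ∀ᶠ n in atTop, ∀ r : ℝ, R₀ / √(lam n) ≤ r → r ≤ r₀ →
      3 * (∫ z, φ z * m z ^ 2) +
        3 / 2 * (∫ z, φ z * (mean r (fun w => u n w ^ 2) z - m z) ^ 2) ≤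
      (∫ z, φ z * u n z ^ 4) + ε * (1 + ∫ z in K, u n z ^ 4) := by
  have hD : ∀ n, D (lam n) = Pool.Agent.TH294.RS.DP (fun _ => 1) (1 / √(lam n)) := by
    intro n
    funext f z
    simp only [D, Pool.Agent.TH294.RS.DP, Pool.Agent.TH294.RS.dd, ofReal_one, one_mul]
  have hs : ∀ n, 0 < √(lam n) := fun n => Real.sqrt_pos.2 (hpos n)
  have hl : Tendsto (fun n => 1 / √(lam n)) atTop (𝓝 0) := by
    have : Tendsto (fun n => √(lam n)) atTop atTop := Real.tendsto_sqrt_atTop.comp hlam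
    exact (this.inv_tendsto_atTop).congr (fun n => by simp [one_div])
  have H : Pool.Agent.TH294.RG.RawG Ω (fun _ => 1) (fun n => 1 / √(lam n)) u
      (Pool.Agent.TH294.RG.MM m Pool.Agent.TH294.RG.ea ν) := by
    refine ⟨fun n => div_pos one_pos (hs n), hl, contDiffOn_const, fun _ _ => one_pos, hu,
      fun n z hz => ?_, fun φ hφ k => ?_⟩
    · have h1 := heq n z hz
      have h2 : (1 / √(lam n)) ^ 2 = 1 / lam n := by
        rw [div_pow, Real.sq_sqrt (hpos n).le, one_pow]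
      have h3 := (hpos n).ne'
      have h4 : lap (u n) z = -(lam n * u n z) := by linarith
      rw [h2, h4]
      field_simp
      ring
    · refine (hsc φ hφ k).congr fun n => ?_
      rw [hD n]
  have hp : ∀ᵐ z ∂(volume.restrict Ω), Pool.Agent.TH294.RG.par Pool.Agent.TH294.RG.ea (ν z) = 0 := by
    filter_upwards [hpar] with z hz
    simp only [Pool.Agent.TH294.RG.par, Pool.Agent.TH294.RG.ea_par]
    exact hz
  have hm2 : ∀ K' : Set ℂ, IsCompact K' → K' ⊆ Ω → MemLp m 2 (volume.restrict K') := by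
    intro K' hK' hK'Ω
    have cm : ContinuousOn m K' := hm.continuousOn.mono hK'Ω
    obtain ⟨C, hC⟩ := hK'.exists_bound_of_continuousOn cm
    have : IsFiniteMeasure (volume.restrict K') := ⟨by simpa using hK'.measure_lt_top⟩
    exact MemLp.of_bound (cm.aestronglyMeasurable hK'.measurableSet) C
      ((ae_restrict_mem hK'.measurableSet).mono hC)
  obtain ⟨R₀, r₀, hR, hr, key⟩ := Pool.Agent.TH294.RG.meso_unif hm2 hm hp H hK hKΩ hφ hφ0
    (show 0 < 2 / 3 * ε by positivity)
  refine ⟨R₀, r₀, hR, hr, key.mono fun n hn r h1 h2 => ?_⟩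
  have hs' : 0 < √(lam n) := hs n
  have r0 : 0 < r := lt_of_lt_of_le (div_pos hR hs') h1
  have h3 := hn r (by rw [mul_one_div]; exact h1) h2
  have e1 : ∀ z, mean r (fun w => u n w ^ 2) z =
      ∫ w, u n (z + r • w) ^ 2 ∂Pool.Agent.TH294.RG.dm := fun z =>
    Pool.Agent.TH294.RG.mean_dm (fun w => u n w ^ 2) z r0
  simp only [e1]
  linarith

end Pool.Agent.Results.MP_6b977f_mp.MesoscopicMass
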