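import Pool.Agent.Q175.RW.PS
import Pool.Agent.TH294.RG.SpecM

/-!
# The power spectrum of the square of a planar eigenfunction, with error `o(1)` (MP_6b977f_mp)

The plane is `ℂ`. `dx f z`, `dy f z` are the partial derivatives `fderiv ℝ f z 1`,
`fderiv ℝ f z I`, `lap f = dx (dx f) + dy (dy f)`; `TF Ω φ` says that `φ : ℂ → ℝ` is smooth with
compact support contained in `Ω`. `D lam f = lam^{-1/2} (∂x f - i ∂y f)` is the normalised
derivative, `L lam g = - lam⁻¹ (∂x² + ∂y²) g` the normalised Laplacian, and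
`opF F lam g = F(L lam) g = ∑ F_i (L lam)^i g` for a real polynomial `F = ∑ F_i x^i`.

The hypothesis `hqe` is quantum ergodicity on `Ω` in its microlocal form:
`∫ φ u (D^k u) → ∫ φ` for `k = 0`, and `→ 0` for `k ≥ 1`.

The theorem computes `∫ φ (F(L) u²)²` for every polynomial `F` in terms of the single moment
`∫ φ u⁴`, with an error `o(1)`; no bound of the fourth moments is assumed. If `F(0) = F(4) = 0`
there is no unknown left: the part of `u²` with frequencies away from `0` and from twice the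
frequency of `u` has the mean square predicted by the random wave model. So the random wave
prediction for the fourth moment can only fail by an excess of mass of `u²` at the frequencies `0`
and `2`, in the ratio `2 : 1`.

Proof idea. With `W_k` the normalised derivatives (`W_k = D^k u` for `k ≥ 0`, conjugates for
`k < 0`), `L` acts on the products `V_m = (-1)^m W_m W_{-m}` by the exact recursion
`L V_m = 2 V_m - V_{m+1} - V_{m-1}`. So `F(L) u²` is the combination of the `V_m` whose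
coefficients are the cosine coefficients of `F(2 - 2 cos α)`. The fourth moments
`∫ φ V_j V_k` are Gaussian up to `(1 or -1/3)` times the defect of `∫ φ u⁴`, up to `o(1)`
(compensated compactness for null quartic forms, and `λ^{-1/2} |W_k|² → 0` locally uniformly).
-/

set_option autoImplicit false
open MeasureTheory Filter Topology Complex
open scoped ContDiff

namespace Pool.Agent.Results.MP_6b977f_mp.SharpPowerSpectrum

open Pool.Agent.W745.RW (TF dx dy lap)

/-- the normalised derivative `λ^{-1/2} (∂x - i ∂y)` -/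
noncomputable def D (lam : ℝ) (f : ℂ → ℂ) (z : ℂ) : ℂ :=
  ((1 / √lam : ℝ) : ℂ) * (dx f z - I * dy f z)

/-- the Laplacian `-(∂x² + ∂y²)` divided by `lam` -/
noncomputable def L (lam : ℝ) (g : ℂ → ℝ) (z : ℂ) : ℝ :=
  -(dx (dx g) z + dy (dy g) z) / lam

/-- the polynomial `F` in the operator `L lam`, applied to `g` -/
noncomputable def opF (F : Polynomial ℝ) (lam : ℝ) (g : ℂ → ℝ) (z : ℂ) : ℝ :=
  F.sum fun i c => c * (L lam)^[i] g z

/-- the mean of `(F(L) u²)²` for the Gaussian random wave: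
`F(0)² + π⁻¹ ∫_0^{2π} F(2 - 2 cos θ)² dθ` -/
noncomputable def gauss (F : Polynomial ℝ) : ℝ :=
  F.eval 0 ^ 2 + 1 / Real.pi * ∫ θ in (0 : ℝ)..(2 * Real.pi), F.eval (2 - 2 * Real.cos θ) ^ 2

/-- **Result.** Let `u n` be real solutions of `Δu + λ_n u = 0` on the open set `Ω ⊆ ℝ²`,
`λ_n → ∞`, which are quantum ergodic on `Ω`, and let `φ` be a test function. Then for every real
polynomial `F`, `∫ φ (F(L) u²)²` equals the Gaussian value `gauss F ∫ φ` plus
`(2 F(0)² + F(4)²) / 3` times the defect `∫ φ u⁴ - 3 ∫ φ` of the fourth moment, up to an error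
`o(1)`. In particular, if `F(0) = F(4) = 0`, then `∫ φ (F(L) u²)² → gauss F ∫ φ`. -/
theorem result (Ω : Set ℂ) (hΩ : IsOpen Ω) (lam : ℕ → ℝ) (hpos : ∀ n, 0 < lam n)
    (hlam : Tendsto lam atTop atTop) (u : ℕ → ℂ → ℝ) (hu : ∀ n, ContDiffOn ℝ ∞ (u n) Ω)
    (heq : ∀ n, ∀ z ∈ Ω, lap (u n) z + lam n * u n z = 0)
    (hqe : ∀ φ, TF Ω φ → ∀ k : ℕ, Tendsto (fun n => ∫ z, (φ z : ℂ) *
      ((u n z : ℂ) * (D (lam n))^[k] (fun w => (u n w : ℂ)) z)) atTop
      (𝓝 (if k = 0 then ((∫ z, φ z : ℝ) : ℂ) else 0)))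
    (φ : ℂ → ℝ) (hφ : TF Ω φ) (F : Polynomial ℝ) :
    Tendsto (fun n =>
      (∫ z, φ z * opF F (lam n) (fun w => u n w ^ 2) z ^ 2)
        - (2 * F.eval 0 ^ 2 + F.eval 4 ^ 2) / 3 *
          ((∫ z, φ z * u n z ^ 4) - 3 * ∫ z, φ z)) atTop
      (𝓝 (gauss F * ∫ z, φ z)) := by
  have hS := Pool.Agent.Y265.RW.raw_sys Ω lam u hpos hlam hu heq hqe
  have key := Pool.Agent.Q175.RW.PS.spec_c hΩ hS hφ F
  have k2 := (Complex.continuous_re.tendsto _).comp key
  have e0 : (((F.eval 0 ^ 2 + 1 / Real.pi *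
      ∫ θ in (0 : ℝ)..(2 * Real.pi), F.eval (2 - 2 * Real.cos θ) ^ 2 : ℝ) : ℂ) *
      ((∫ z, φ z : ℝ) : ℂ)).re = gauss F * ∫ z, φ z := by
    rw [← Complex.ofReal_mul, Complex.ofReal_re]; rfl
  rw [e0] at k2
  refine k2.congr fun n => ?_
  have hT : ∀ g, ∀ z ∈ Ω, L (lam n) g z =
      Pool.Agent.TH294.RG.sR (fun _ => 1) (1 / √(lam n)) g z := by
    intro g z _
    have h2 : (1 / √(lam n)) ^ 2 = 1 / lam n := by
      rw [div_pow, Real.sq_sqrt (hpos n).le, one_pow]
    simp only [L, Pool.Agent.TH294.RG.sR, h2, lap]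
    ring
  have s2 : ContDiffOn ℝ ∞ (fun w => u n w ^ 2) Ω := (hu n).pow 2
  have sim : ContDiffOn ℝ ∞ (fun _ : ℂ => (1 : ℝ)) Ω := contDiffOn_const
  have e1 : ∀ z ∈ Ω, Pool.Agent.TH294.RG.opP (fun _ => 1) (1 / √(lam n)) F
      (fun w => (u n w : ℂ) * (u n w : ℂ)) z =
      ((opF F (lam n) (fun w => u n w ^ 2) z : ℝ) : ℂ) := by
    intro z hz
    simp only [opF, Pool.Agent.TH294.RG.opP, Polynomial.sum_def]
    push_cast
    refine Finset.sum_congr rfl fun i _ => ?_
    rw [Pool.Agent.TH294.RG.sL1_re hΩ sim _ s2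
      (fun w _ => by push_cast; ring) i z hz, Pool.Agent.TH294.RG.sR_cg hΩ hT _ i z hz]
  have w0 : ∀ z, Pool.Agent.Q175.RW.PS.LW (fun n => 1 / √(lam n)) u 0 n z = (u n z : ℂ) :=
    fun z => rfl
  have v0 : Pool.Agent.TH294.RG.vv (Pool.Agent.Q175.RW.PS.LW (fun n => 1 / √(lam n)) u) 0 n =
      fun w => (u n w : ℂ) * (u n w : ℂ) := by
    funext z
    simp only [Pool.Agent.TH294.RG.vv, neg_zero, Int.natAbs_zero, pow_zero, one_mul, w0]
  have a1 : ∫ z, (φ z : ℂ) * (Pool.Agent.TH294.RG.opP Pool.Agent.Q175.RW.PS.o1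
      (1 / √(lam n)) F (Pool.Agent.TH294.RG.vv
        (Pool.Agent.Q175.RW.PS.LW (fun n => 1 / √(lam n)) u) 0 n) z *
      Pool.Agent.TH294.RG.opP Pool.Agent.Q175.RW.PS.o1
      (1 / √(lam n)) F (Pool.Agent.TH294.RG.vv
        (Pool.Agent.Q175.RW.PS.LW (fun n => 1 / √(lam n)) u) 0 n) z) =
      ((∫ z, φ z * opF F (lam n) (fun w => u n w ^ 2) z ^ 2 : ℝ) : ℂ) := by
    rw [← integral_complex_ofReal, v0]
    congr 1; funext z
    by_cases hz : z ∈ Ω
    · have := e1 z hz
      rw [show (Pool.Agent.Q175.RW.PS.o1 : ℂ → ℝ) = fun _ => 1 from rfl, this]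
      push_cast; ring
    · have : φ z = 0 := Pool.Agent.TH294.RS.TF.zero hφ hz
      rw [this]; simp
  have a2 : ∫ z, (φ z : ℂ) * Pool.Agent.TH294.RS.F4
      (Pool.Agent.Q175.RW.PS.LW (fun n => 1 / √(lam n)) u) 0 0 0 0 n z =
      ((∫ z, φ z * u n z ^ 4 : ℝ) : ℂ) := by
    rw [← integral_complex_ofReal]
    congr 1; funext z
    simp only [Pool.Agent.TH294.RS.F4, w0]
    push_cast; ring
  simp only [Function.comp_def]
  rw [a1, a2]
  rw [show (3 : ℂ) = ((3 : ℝ) : ℂ) by norm_num, ← Complex.ofReal_mul, ← Complex.ofReal_sub,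
    ← Complex.ofReal_mul, ← Complex.ofReal_sub, Complex.ofReal_re]

end Pool.Agent.Results.MP_6b977f_mp.SharpPowerSpectrum
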