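import Pool.Agent.TH421.AZ.Main

/-!
# Small values of planar Laplace eigenfunctions and the fourth moment (MP_6b977f_mp)

The plane is `ℂ`; `dx f z`, `dy f z` are the partial derivatives `fderiv ℝ f z 1`,
`fderiv ℝ f z I`, `lap f = dx (dx f) + dy (dy f)`; `TF Ω φ` says that `φ : ℂ → ℝ` is smooth with
compact support contained in `Ω`.

The operator `D = λ^{-1/2} (∂x - i ∂y)` has, at a unit momentum of direction `α`, the symbol
`sym α = i exp(-iα)`. The hypothesis `hsc` says that `u n` has the semiclassical measure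
`m(z) ν_z(dα) dz` on the unit cosphere bundle over `Ω`. Quantum ergodicity is the case `m = 1`,
`ν_z` uniform. The hypothesis `hpar` says that `ν_z` has no atoms modulo `π`.
-/

set_option autoImplicit false
open MeasureTheory Filter Topology Complex ProbabilityTheory
open scoped ContDiff ENNReal

namespace Pool.Agent.Results.MP_6b977f_mp.SmallValues

open Pool.Agent.W745.RW

/-- the normalised derivative `λ^{-1/2} (∂x - i ∂y)` -/
noncomputable def D (lam : ℝ) (f : ℂ → ℂ) (z : ℂ) : ℂ :=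
  ((1 / √lam : ℝ) : ℂ) * (dx f z - I * dy f z)

/-- the symbol of `D` at a unit momentum of direction `α` -/
noncomputable def sym (α : ℝ) : ℂ := I * Complex.exp (-(α : ℂ) * I)

/-- the probability that two independent directions of law `ν` are parallel (equal or opposite) -/
noncomputable def parallel (ν : Measure ℝ) : ℝ :=
  (ν.prod ν).real {p | Real.sin (p.1 - p.2) = 0}

/-- **Result.** Let `u n` be real solutions of `Δu + λ_n u = 0` on the open set `Ω ⊆ ℝ²`,
`λ_n → ∞`, with semiclassical measure `m(z) ν_z dz`, `m` locally square integrable and `ν_z`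
without atoms modulo `π`. Let `K ⊆ Ω` be compact and `φ ≥ 0` a test function supported in the
interior of `K`. Then for every `ε > 0` there is `s > 0` such that, for all large `n`, the square
of `∫ φ m` is at most `∫_{|u n| > s} φ` times `∫ φ (u n)⁴ - 2 ∫ φ m²`, up to an error
`ε (1 + ∫_K u⁴)`. -/
theorem result (Ω : Set ℂ) (hΩ : IsOpen Ω) (lam : ℕ → ℝ) (hpos : ∀ n, 0 < lam n)
    (hlam : Tendsto lam atTop atTop) (u : ℕ → ℂ → ℝ) (hu : ∀ n, ContDiffOn ℝ ∞ (u n) Ω)
    (heq : ∀ n, ∀ z ∈ Ω, lap (u n) z + lam n * u n z = 0)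
    (m : ℂ → ℝ) (hm : ∀ K : Set ℂ, IsCompact K → K ⊆ Ω → MemLp m 2 (volume.restrict K))
    (ν : Kernel ℂ ℝ) [IsMarkovKernel ν]
    (hsc : ∀ φ, TF Ω φ → ∀ k : ℕ, Tendsto (fun n => ∫ z, (φ z : ℂ) * ((u n z : ℂ) *
      (D (lam n))^[k] (fun w => (u n w : ℂ)) z)) atTop
      (𝓝 (∫ z, (φ z : ℂ) * ((m z : ℂ) * ∫ α, sym α ^ k ∂(ν z)))))
    (hpar : ∀ᵐ z ∂(volume.restrict Ω), parallel (ν z) = 0)
    (K : Set ℂ) (hK : IsCompact K) (hKΩ : K ⊆ Ω)
    (φ : ℂ → ℝ) (hφ : TF (interior K) φ) (hφ0 : ∀ z, 0 ≤ φ z) (ε : ℝ) (hε : 0 < ε) :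
    ∃ s : ℝ, 0 < s ∧ ∀ᶠ n in atTop, (∫ z, φ z * m z) ^ 2 ≤
      (∫ z in {z | z ∈ Ω ∧ s < |u n z|}, φ z) *
        ((∫ z, φ z * u n z ^ 4) - 2 * ∫ z, φ z * m z ^ 2) +
          ε * (1 + ∫ z in K, u n z ^ 4) := by
  have hD : ∀ n, D (lam n) = Pool.Agent.TH294.RS.DP (fun _ => 1) (1 / √(lam n)) := by
    intro n
    funext f z
    simp only [D, Pool.Agent.TH294.RS.DP, Pool.Agent.TH294.RS.dd, ofReal_one, one_mul]
  have hs : ∀ n, 0 < √(lam n) := fun n => Real.sqrt_pos.2 (hpos n)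
  have hl : Tendsto (fun n => 1 / √(lam n)) atTop (𝓝 0) := by
    have : Tendsto (fun n => √(lam n)) atTop atTop := Real.tendsto_sqrt_atTop.comp hlam
    exact (this.inv_tendsto_atTop).congr (fun n => by simp [one_div])
  have H : Pool.Agent.TH294.RG.RawG Ω (fun _ => 1) (fun n => 1 / √(lam n)) u
      (Pool.Agent.TH294.RG.MM m Pool.Agent.TH294.RG.ea ν) := by
    refine ⟨fun n => div_pos one_pos (hs n), hl, contDiffOn_const, fun _ _ => one_pos, hu,
      fun n z hz => ?_, fun φ hφ k => ?_⟩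
    · have h1 := heq n z hz
      have h2 : (1 / √(lam n)) ^ 2 = 1 / lam n := by
        rw [div_pow, Real.sq_sqrt (hpos n).le, one_pow]
      have h3 := (hpos n).ne'
      have h4 : lap (u n) z = -(lam n * u n z) := by linarith
      rw [h2, h4]
      field_simp
      ring
    · refine (hsc φ hφ k).congr fun n => ?_
      rw [hD n]
  have hp : ∀ᵐ z ∂(volume.restrict Ω), Pool.Agent.TH294.RG.par Pool.Agent.TH294.RG.ea (ν z) = 0 := by
    filter_upwards [hpar] with z hz
    simp only [Pool.Agent.TH294.RG.par, Pool.Agent.TH294.RG.ea_par]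
    exact hz
  have key := Pool.Agent.TH421.AC.small_rel hΩ hm hp H hK hKΩ hφ hφ0 hε
  obtain ⟨s, hs, hs0⟩ := (key.and self_mem_nhdsWithin).exists
  exact ⟨s, hs0, hs⟩

end Pool.Agent.Results.MP_6b977f_mp.SmallValues
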